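import Mathlib

set_option autoImplicit false

/-!
# MP_0f31da: `f(G) ≥ ⌈b(G) / l̄⌉` is false

Take a 4-cycle and a clique on 27 vertices and join them by one edge.
Then `f(G) = 5`, `b(G) = 6` and the sum of the local independence numbers is at most `37`,
so that `f(G) * l̄ ≤ 5 * 37 / 31 = 185 / 31 < 186 / 31 = 6 ≤ b(G)`.
-/

namespace Pool.Agent.Results.MP_0f31da_co.SquarePlusClique

open SimpleGraph Finset

/-- `f(G)`: the largest number of vertices of an induced forest. -/
noncomputable def forestNumber {V : Type} [Fintype V] (G : SimpleGraph V) : ℕ :=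
  sSup {k : ℕ | ∃ S : Finset V, S.card = k ∧ (G.induce (S : Set V)).IsAcyclic}

/-- `b(G)`: the largest number of vertices of an induced bipartite subgraph. -/
noncomputable def bipartiteNumber {V : Type} [Fintype V] (G : SimpleGraph V) : ℕ :=
  sSup {k : ℕ | ∃ S : Finset V, S.card = k ∧ (G.induce (S : Set V)).IsBipartite}

/-- `l(v)`: the independence number of the subgraph induced on the neighbourhood of `v`. -/
noncomputable def localIndependence {V : Type} [Fintype V] (G : SimpleGraph V) (v : V) : ℕ :=
  (G.induce (G.neighborSet v)).indepNum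

/-- `l̄`: the average of `l(v)` over all vertices. -/
noncomputable def averageLocalIndependence {V : Type} [Fintype V] (G : SimpleGraph V) : ℚ :=
  (∑ v : V, (localIndependence G v : ℚ)) / (Fintype.card V : ℚ)

/-! ### general bounds -/

theorem forestNumber_le {V : Type} [Fintype V] (G : SimpleGraph V) (m : ℕ)
    (h : ∀ S : Finset V, (G.induce (S : Set V)).IsAcyclic → S.card ≤ m) :
    forestNumber G ≤ m := by
  unfold forestNumber
  apply csSup_le
  · refine ⟨0, ∅, rfl, ?_⟩
    intro v
    exact absurd v.2 (by simp)
  · rintro k ⟨S, rfl, hS⟩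
    exact h S hS

theorem le_bipartiteNumber {V : Type} [Fintype V] (G : SimpleGraph V) (S : Finset V)
    (h : (G.induce (S : Set V)).IsBipartite) : S.card ≤ bipartiteNumber G := by
  unfold bipartiteNumber
  apply le_csSup
  · refine ⟨Fintype.card V, ?_⟩
    rintro k ⟨T, rfl, _⟩
    exact Finset.card_le_univ T
  · exact ⟨S, rfl, h⟩

theorem localIndependence_le {V : Type} [Fintype V] (G : SimpleGraph V) (v : V)
    (c : V → ℕ) (A : Finset ℕ) (h1 : ∀ x, G.Adj v x → c x ∈ A)
    (h2 : ∀ x y, c x = c y → x = y ∨ G.Adj x y) : localIndependence G v ≤ A.card := by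
  classical
  unfold localIndependence
  obtain ⟨s, hs⟩ := (G.induce (G.neighborSet v)).exists_isNIndepSet_indepNum
  rw [← hs.card_eq]
  apply Finset.card_le_card_of_injOn (fun x => c x.1)
  · intro x _
    exact h1 _ x.2
  · intro x hx y hy hxy
    by_contra hne
    rcases h2 _ _ hxy with h | h
    · exact hne (Subtype.ext h)
    · exact hs.isIndepSet hx hy hne h

/-! ### the graph -/

abbrev W : Type := Fin 4 ⊕ Fin 27

def adjB : W → W → Bool
  | Sum.inl i, Sum.inl j => decide (i.val % 2 ≠ j.val % 2)
  | Sum.inr i, Sum.inr j => decide (i ≠ j)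
  | Sum.inl i, Sum.inr j => decide (i = 0) && decide (j = 0)
  | Sum.inr i, Sum.inl j => decide (i = 0) && decide (j = 0)

theorem adjB_symm (x y : W) : adjB x y = adjB y x := by
  rcases x with i | i <;> rcases y with j | j <;> simp [adjB, eq_comm, Bool.and_comm]

theorem adjB_irrefl (x : W) : adjB x x = false := by
  rcases x with i | i <;> simp [adjB]

def G : SimpleGraph W where
  Adj x y := adjB x y = true
  symm := ⟨fun x y h => by rw [adjB_symm]; exact h⟩
  loopless := ⟨fun x h => by rw [adjB_irrefl] at h; exact absurd h (by simp)⟩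

theorem adj_iff (x y : W) : G.Adj x y ↔ adjB x y = true := Iff.rfl

instance : DecidableRel G.Adj := fun x y => inferInstanceAs (Decidable (adjB x y = true))

theorem connected : G.Connected := by
  have h0 : ∀ x : W, G.Reachable x (Sum.inl 0) := by
    intro x
    have h1 : G.Reachable (Sum.inl 1 : W) (Sum.inl 0) :=
      Adj.reachable (by rw [adj_iff]; decide)
    have h2 : G.Reachable (Sum.inr 0 : W) (Sum.inl 0) :=
      Adj.reachable (by rw [adj_iff]; decide)
    rcases x with i | i
    · by_cases hi : i.val % 2 = 0
      · have : G.Adj (Sum.inl i) (Sum.inl 1 : W) := by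
          rw [adj_iff]
          simp [adjB, hi]
        exact this.reachable.trans h1
      · have : G.Adj (Sum.inl i) (Sum.inl 0 : W) := by
          rw [adj_iff]
          simp only [adjB, decide_eq_true_eq]
          exact hi
        exact this.reachable
    · by_cases hi : i = 0
      · rw [hi]; exact h2
      · have : G.Adj (Sum.inr i) (Sum.inr 0 : W) := by
          rw [adj_iff]
          simp [adjB, hi]
        exact this.reachable.trans h2
  have : Nonempty W := ⟨Sum.inl 0⟩
  exact ⟨fun x y => (h0 x).trans (h0 y).symm⟩

theorem card_le_five (S : Finset W) (hS : (G.induce (S : Set W)).IsAcyclic) : S.card ≤ 5 := by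
  classical
  have hL : S.toLeft.card ≤ 3 := by
    by_contra hcon
    have h4 : S.toLeft = Finset.univ := by
      apply Finset.eq_univ_of_card
      have := Finset.card_le_univ S.toLeft
      simp at this ⊢
      omega
    have hm : ∀ i : Fin 4, (Sum.inl i : W) ∈ S := by
      intro i
      rw [← Finset.mem_toLeft, h4]
      exact Finset.mem_univ i
    refine (isAcyclic_iff_free_cycleGraph.1 hS) 4 (by norm_num) ?_
    refine ⟨⟨⟨fun i => ⟨Sum.inl i, hm i⟩, ?_⟩, ?_⟩⟩
    · intro a b hab
      simp only [comap_adj, Function.Embedding.coe_subtype]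
      rw [adj_iff]
      revert a b
      decide
    · intro a b hab
      simpa using hab
  have hR : S.toRight.card ≤ 2 := by
    by_contra hcon
    obtain ⟨T, hT1, hT2⟩ := Finset.exists_subset_card_eq (show 3 ≤ S.toRight.card by omega)
    have hcf := hS.cliqueFree (n := 3) le_rfl
    refine hcf (T.attach.map ⟨fun i => ⟨Sum.inr i.1, ?_⟩, ?_⟩) ?_
    · have := hT1 i.2
      rwa [Finset.mem_toRight] at this
    · intro a b hab
      have h1 : (Sum.inr a.1 : W) = Sum.inr b.1 := congrArg Subtype.val hab
      exact Subtype.ext (Sum.inr_injective h1)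
    · rw [isNClique_iff]
      constructor
      · intro x hx y hy hxy
        obtain ⟨a, _, rfl⟩ := Finset.mem_map.1 (Finset.mem_coe.1 hx)
        obtain ⟨b, _, rfl⟩ := Finset.mem_map.1 (Finset.mem_coe.1 hy)
        change adjB (Sum.inr a.1) (Sum.inr b.1) = true
        rw [adjB, decide_eq_true_eq]
        intro hab
        apply hxy
        rw [Subtype.ext hab]
      · rw [Finset.card_map, Finset.card_attach, hT2]
  have := Finset.card_toLeft_add_card_toRight (u := S)
  omega

def side : W → Bool
  | Sum.inl i => decide (i.val % 2 = 0)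
  | Sum.inr i => decide (i.val % 2 = 0)

def six : Finset W := {Sum.inl 0, Sum.inl 1, Sum.inl 2, Sum.inl 3, Sum.inr 1, Sum.inr 2}

theorem six_spec : ∀ x ∈ six, ∀ y ∈ six, adjB x y = true → side x ≠ side y := by
  decide

theorem six_le : 6 ≤ bipartiteNumber G := by
  have hc : six.card = 6 := by decide
  rw [← hc]
  apply le_bipartiteNumber
  refine (Coloring.mk (α := Bool) (fun x => side x.1) ?_).colorable
  intro x y hxy
  exact six_spec x.1 x.2 y.1 y.2 hxy

def colour : W → ℕ
  | Sum.inl i => i.val
  | Sum.inr _ => 4

theorem colour_spec (x y : W) (h : colour x = colour y) : x = y ∨ G.Adj x y := by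
  rw [adj_iff]
  rcases x with i | i <;> rcases y with j | j <;> simp [colour, adjB] at h ⊢
  · left; exact Fin.ext h
  · omega
  · omega
  · exact Decidable.em _

theorem local_inl (i : Fin 4) : localIndependence G (Sum.inl i) ≤ if i = 0 then 3 else 2 := by
  fin_cases i
  · refine (localIndependence_le G _ colour {1, 3, 4} ?_ colour_spec).trans (by decide)
    intro x hx
    rw [adj_iff] at hx
    rcases x with j | j
    · revert j; decide
    · simp [colour]
  · refine (localIndependence_le G _ colour {0, 2} ?_ colour_spec).trans (by decide)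
    intro x hx
    rw [adj_iff] at hx
    rcases x with j | j
    · revert j; decide
    · simp [adjB] at hx
  · refine (localIndependence_le G _ colour {1, 3} ?_ colour_spec).trans (by decide)
    intro x hx
    rw [adj_iff] at hx
    rcases x with j | j
    · revert j; decide
    · simp [adjB] at hx
  · refine (localIndependence_le G _ colour {0, 2} ?_ colour_spec).trans (by decide)
    intro x hx
    rw [adj_iff] at hx
    rcases x with j | j
    · revert j; decide
    · simp [adjB] at hx

theorem local_inr (i : Fin 27) : localIndependence G (Sum.inr i) ≤ if i = 0 then 2 else 1 := by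
  by_cases hi : i = 0
  · rw [if_pos hi]
    refine (localIndependence_le G _ colour {0, 4} ?_ colour_spec).trans (by decide)
    intro x hx
    rw [adj_iff] at hx
    rcases x with j | j
    · simp only [adjB, Bool.and_eq_true, decide_eq_true_eq] at hx
      simp [colour, hx.2]
    · simp [colour]
  · rw [if_neg hi]
    refine (localIndependence_le G _ colour {4} ?_ colour_spec).trans (by decide)
    intro x hx
    rw [adj_iff] at hx
    rcases x with j | j
    · simp only [adjB, Bool.and_eq_true, decide_eq_true_eq] at hx
      exact absurd hx.1 hi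
    · simp [colour]

theorem sum_local : ∑ v : W, localIndependence G v ≤ 37 := by
  rw [Fintype.sum_sum_type]
  have h1 : ∑ i : Fin 4, localIndependence G (Sum.inl i) ≤
      ∑ i : Fin 4, if i = 0 then 3 else 2 := Finset.sum_le_sum fun i _ => local_inl i
  have h2 : ∑ i : Fin 27, localIndependence G (Sum.inr i) ≤
      ∑ i : Fin 27, if i = 0 then 2 else 1 := Finset.sum_le_sum fun i _ => local_inr i
  have h3 : (∑ i : Fin 4, if i = 0 then 3 else 2) = 9 := by decide
  have h4 : (∑ i : Fin 27, if i = 0 then 2 else 1) = 28 := by decide
  omega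

/-- There is a connected graph with at least two vertices and `f(G) < b(G) / l̄`;
it has 31 vertices. -/
theorem result : ∃ (V : Type) (_ : Fintype V) (G : SimpleGraph V),
    G.Connected ∧ 2 ≤ Fintype.card V ∧
      (forestNumber G : ℚ) < (bipartiteNumber G : ℚ) / averageLocalIndependence G ∧
      ¬ (⌈(bipartiteNumber G : ℚ) / averageLocalIndependence G⌉ ≤ (forestNumber G : ℤ)) := by
  have key : (forestNumber G : ℚ) < (bipartiteNumber G : ℚ) / averageLocalIndependence G := by
    have hf : (forestNumber G : ℚ) ≤ 5 := by
      exact_mod_cast forestNumber_le G 5 card_le_five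
    have hb : (6 : ℚ) ≤ bipartiteNumber G := by exact_mod_cast six_le
    have hs : (∑ v : W, (localIndependence G v : ℚ)) ≤ 37 := by exact_mod_cast sum_local
    have hcard : (Fintype.card W : ℚ) = 31 := by simp [W]
    have hpos : 0 < ∑ v : W, (localIndependence G v : ℚ) := by
      have h1 : (1 : ℚ) ≤ (localIndependence G (Sum.inl 0) : ℚ) := by
        have : 1 ≤ localIndependence G (Sum.inl 0) := by
          unfold localIndependence
          have hmem : (Sum.inl 1 : W) ∈ G.neighborSet (Sum.inl 0) := by
            rw [mem_neighborSet, adj_iff]; decide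
          have hI : (G.induce (G.neighborSet (Sum.inl 0))).IsIndepSet
              (({⟨Sum.inl 1, hmem⟩} : Finset (G.neighborSet (Sum.inl 0))) :
                Set (G.neighborSet (Sum.inl 0))) := by
            rw [Finset.coe_singleton]
            exact Set.pairwise_singleton _ _
          simpa using hI.card_le_indepNum
        exact_mod_cast this
      have h2 : (localIndependence G (Sum.inl 0) : ℚ) ≤ ∑ v : W, (localIndependence G v : ℚ) :=
        Finset.single_le_sum (f := fun v : W => (localIndependence G v : ℚ))
          (fun v _ => by positivity) (Finset.mem_univ _)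
      linarith
    unfold averageLocalIndependence
    rw [hcard, div_div_eq_mul_div, lt_div_iff₀ hpos]
    nlinarith
  refine ⟨W, inferInstance, G, connected, by simp [W], key, ?_⟩
  intro h
  have h1 := Int.le_ceil ((bipartiteNumber G : ℚ) / averageLocalIndependence G)
  have h2 : ((⌈(bipartiteNumber G : ℚ) / averageLocalIndependence G⌉ : ℤ) : ℚ) ≤
      (forestNumber G : ℚ) := by exact_mod_cast h
  linarith

end Pool.Agent.Results.MP_0f31da_co.SquarePlusClique
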